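import Pool.Agent.helper23.F2.Spec

set_option autoImplicit false

open scoped BigOperators

namespace Pool.Agent.F2

open Pool.Agent.helper23.TH

theorem mt6_aux {V L : Type} [Fintype L] {b s : ℕ} (G : LG V L b s) (v : V) (a : ℝ) :
    ∑ x : L, (open Classical in (if x ∈ G.lv v then a ^ 2 else 0)) ≤ b * a ^ 2 := by
  classical
  rw [← Finset.sum_filter, Finset.sum_const, nsmul_eq_mul]
  refine mul_le_mul_of_nonneg_right ?_ (sq_nonneg a)
  refine le_trans (Nat.cast_le.mpr (Finset.card_le_card (t := G.lv v) ?_)) (Nat.cast_le.mpr (G.bv v))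
  intro x hx
  exact (Finset.mem_filter.mp hx).2

theorem MT6 : MT6_stmt := by
  classical
  intro V L _ _ b s G t
  constructor
  · unfold LG.FF hh
    have h1 : ∀ x : L, nsq (G.MM t x (.inl 0)) =
        ∑ v, ∑ y, (if x ∈ G.lv v then ((am G.A ^ t) v y) ^ 2 else 0) := by
      intro x
      unfold nsq LG.MM LG.PM
      simp only [Fin.val_zero, pow_zero, Matrix.one_mul, Nat.sub_zero, Matrix.diagonal_mul]
      refine Finset.sum_congr rfl fun v _ => Finset.sum_congr rfl fun y _ => ?_
      split_ifs <;> simp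
    calc ∑ x : L, nsq (G.MM t x (.inl 0))
        = ∑ x : L, ∑ v, ∑ y, (if x ∈ G.lv v then ((am G.A ^ t) v y) ^ 2 else 0) :=
          Finset.sum_congr rfl fun x _ => h1 x
      _ = ∑ v, ∑ y, ∑ x : L, (if x ∈ G.lv v then ((am G.A ^ t) v y) ^ 2 else 0) := by
          rw [Finset.sum_comm]
          refine Finset.sum_congr rfl fun v _ => ?_
          rw [Finset.sum_comm]
      _ ≤ ∑ v, ∑ y, (b : ℝ) * ((am G.A ^ t) v y) ^ 2 := by
          refine Finset.sum_le_sum fun v _ => Finset.sum_le_sum fun y _ => ?_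
          exact mt6_aux G v _
      _ = _ := by
          simp only [Finset.mul_sum]
  · unfold LG.FF hh
    have h1 : ∀ x : L, nsq (G.MM t x (.inl (Fin.last t))) =
        ∑ v, ∑ y, (if x ∈ G.lv y then ((am G.A ^ t) v y) ^ 2 else 0) := by
      intro x
      unfold nsq LG.MM LG.PM
      simp only [Fin.val_last, Nat.sub_self, pow_zero, Matrix.mul_one, Matrix.mul_diagonal]
      refine Finset.sum_congr rfl fun v _ => Finset.sum_congr rfl fun y _ => ?_
      split_ifs <;> simp
    calc ∑ x : L, nsq (G.MM t x (.inl (Fin.last t)))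
        = ∑ x : L, ∑ v, ∑ y, (if x ∈ G.lv y then ((am G.A ^ t) v y) ^ 2 else 0) :=
          Finset.sum_congr rfl fun x _ => h1 x
      _ = ∑ v, ∑ y, ∑ x : L, (if x ∈ G.lv y then ((am G.A ^ t) v y) ^ 2 else 0) := by
          rw [Finset.sum_comm]
          refine Finset.sum_congr rfl fun v _ => ?_
          rw [Finset.sum_comm]
      _ ≤ ∑ v, ∑ y, (b : ℝ) * ((am G.A ^ t) v y) ^ 2 := by
          refine Finset.sum_le_sum fun v _ => Finset.sum_le_sum fun y _ => ?_
          exact mt6_aux G y _
      _ = _ := by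
          simp only [Finset.mul_sum]

end Pool.Agent.F2
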